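import Mathlib
import Pool.Agent.Y94.LL.Main
import Pool.Agent.Helper42.UG.Kern

/-!
# The discrepancy of the arguments of a finite set of complex numbers and its energy
-/

set_option autoImplicit false
set_option maxHeartbeats 1000000

namespace Pool.Agent.Helper42.RD

open Complex Finset MeasureTheory
open Pool.Agent.Y94.LL
open Pool.Agent.Helper42.UG (em EE int_TT int_radial int_arc int_TT_nonneg norm_EE_le)

/-- `z` lies in the closed sector `α ≤ arg z ≤ β` -/
def InSector (α β : ℝ) (z : ℂ) : Prop :=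
  ∃ θ : ℝ, α ≤ θ ∧ θ ≤ β ∧ z = (‖z‖ : ℂ) * Complex.exp (θ * I)

/-- the power sums of the reflected points -/
noncomputable def pw (S : Finset ℂ) (k : ℕ) : ℂ := ∑ z ∈ S, hat z ^ k

/-- `∑ log max (1, |z|)` -/
noncomputable def hh (S : Finset ℂ) : ℝ := ∑ z ∈ S, Real.log (max 1 ‖z‖)

/-- `∑ |log |z||` -/
noncomputable def aa (S : Finset ℂ) : ℝ := ∑ z ∈ S, |Real.log ‖z‖|

/-- the energy -/
noncomputable def en (S : Finset ℂ) : ℝ := ∑ z ∈ S, ∑ w ∈ S, Real.log ‖z - w‖

/-- the excess -/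
noncomputable def xx (S : Finset ℂ) : ℝ := 2 * (S.card : ℝ) * hh S - en S

open Classical in
/-- the number of points in the sector -/
noncomputable def cn (S : Finset ℂ) (α β : ℝ) : ℕ := (S.filter (InSector α β)).card

/-- the energy inequality -/
theorem energy_set (S : Finset ℂ) {ρ : ℝ} (h0 : 0 ≤ ρ) (h1 : ρ < 1) (n : ℕ) :
    ∑ k ∈ range n, ρ ^ (k + 1) / ((k : ℝ) + 1) * ‖pw S (k + 1)‖ ^ 2 ≤
      xx S + (S.card : ℝ) ^ 2 * Real.log (2 / (1 + ρ)) +
        (S.card : ℝ) * Real.log (1 / (1 - ρ)) := by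
  classical
  have hB := series S h0 h1 n
  set d : ℝ := (S.card : ℝ) with hd
  have hC : ∑ z ∈ S, ∑ w ∈ S, Real.log ‖z - w‖ ≤
      ∑ z ∈ S, ∑ w ∈ S, (Real.log (max 1 ‖z‖) + Real.log (max 1 ‖w‖) +
        Real.log (2 / (1 + ρ)) +
        Real.log ‖1 - (ρ : ℂ) * (hat z * (starRingEnd ℂ) (hat w))‖ +
        if w = z then Real.log (1 / (1 - ρ)) else 0) := by
    apply sum_le_sum
    intro z _
    apply sum_le_sum
    intro w _
    by_cases hwz : w = z
    · subst hwz
      rw [if_pos rfl, sub_self, norm_zero, Real.log_zero]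
      exact diag_log w h0 h1
    · rw [if_neg hwz, add_zero]
      exact pair_log (fun h => hwz h.symm) h0 h1
  have hD : ∑ z ∈ S, ∑ w ∈ S, (Real.log (max 1 ‖z‖) + Real.log (max 1 ‖w‖) +
        Real.log (2 / (1 + ρ)) +
        Real.log ‖1 - (ρ : ℂ) * (hat z * (starRingEnd ℂ) (hat w))‖ +
        if w = z then Real.log (1 / (1 - ρ)) else 0) =
      2 * d * (∑ z ∈ S, Real.log (max 1 ‖z‖)) + d ^ 2 * Real.log (2 / (1 + ρ)) +
        ∑ z ∈ S, ∑ w ∈ S, Real.log ‖1 - (ρ : ℂ) * (hat z * (starRingEnd ℂ) (hat w))‖ +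
        d * Real.log (1 / (1 - ρ)) := by
    simp only [sum_add_distrib, sum_const, nsmul_eq_mul, sum_ite_eq', ← mul_sum, ← hd]
    have e : ∑ z ∈ S, (if z ∈ S then Real.log (1 / (1 - ρ)) else 0) =
        d * Real.log (1 / (1 - ρ)) := by
      rw [sum_congr rfl (g := fun _ => Real.log (1 / (1 - ρ))) (fun z hz => if_pos hz),
        sum_const, nsmul_eq_mul]
    rw [e]
    ring
  have hF := hC.trans hD.le
  unfold xx hh en pw
  linarith

theorem rho_facts {d : ℝ} (hd : 1 ≤ d) : 0 ≤ d / (d + 1) ∧ d / (d + 1) < 1 ∧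
    Real.log (2 / (1 + d / (d + 1))) ≤ 1 / d ∧ Real.log (1 / (1 - d / (d + 1))) = Real.log (d + 1) ∧
    Real.exp (-(1 / d)) ≤ d / (d + 1) := by
  have hd10 : 0 < d + 1 := by linarith
  have hd0 : 0 < d := by linarith
  refine ⟨by positivity, by rw [div_lt_one hd10]; linarith, ?_, ?_, ?_⟩
  · have e : 2 / (1 + d / (d + 1)) = 1 + 1 / (2 * d + 1) := by
      field_simp
      ring
    have h2 : Real.log (1 + 1 / (2 * d + 1)) ≤ 1 / (2 * d + 1) := by
      have := Real.log_le_sub_one_of_pos (show 0 < 1 + 1 / (2 * d + 1) by positivity)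
      linarith
    rw [e]
    refine h2.trans ?_
    exact one_div_le_one_div_of_le (by linarith) (by linarith)
  · congr 1
    field_simp
    ring
  · have h2 := Real.add_one_le_exp (1 / d)
    rw [Real.exp_neg]
    rw [inv_le_comm₀ (Real.exp_pos _) (by positivity)]
    have e : (d / (d + 1))⁻¹ = 1 / d + 1 := by
      field_simp
      ring
    rw [e]
    exact h2

/-- the energy inequality for the special parameter -/
theorem energy_sp {S : Finset ℂ} (hS : 1 ≤ S.card) (n : ℕ) :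
    ∑ k ∈ range n, ((S.card : ℝ) / (S.card + 1)) ^ (k + 1) / ((k : ℝ) + 1) * ‖pw S (k + 1)‖ ^ 2 ≤
      xx S + S.card + S.card * Real.log (S.card + 1) := by
  have hd1 : (1 : ℝ) ≤ (S.card : ℝ) := by exact_mod_cast hS
  obtain ⟨h0, h1, h2, h3, -⟩ := rho_facts hd1
  have hE := energy_set S h0 h1 n
  rw [h3] at hE
  have h4 : (S.card : ℝ) ^ 2 * Real.log (2 / (1 + (S.card : ℝ) / (S.card + 1))) ≤ S.card := by
    calc (S.card : ℝ) ^ 2 * Real.log (2 / (1 + (S.card : ℝ) / (S.card + 1))) ≤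
        (S.card : ℝ) ^ 2 * (1 / S.card) := mul_le_mul_of_nonneg_left h2 (sq_nonneg _)
      _ = S.card := by field_simp
  linarith

theorem xx_ge {S : Finset ℂ} (hS : 1 ≤ S.card) :
    0 ≤ xx S + S.card + S.card * Real.log (S.card + 1) := by
  have := energy_sp hS 0
  simpa using this

/-- the weighted sum of the power sums -/
theorem pw_bound {S : Finset ℂ} (hS : 1 ≤ S.card) :
    ∑ k ∈ range S.card, ‖pw S (k + 1)‖ / ((k : ℝ) + 1) ≤
      Real.sqrt (3 * S.card) * (1 + Real.log (S.card + 1)) +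
        3 / (2 * Real.sqrt (3 * S.card)) * xx S := by
  set n : ℕ := S.card with hn
  set d : ℝ := (n : ℝ) with hdd
  have hd1 : 1 ≤ d := Nat.one_le_cast.2 hS
  have hlog0 : 0 ≤ Real.log (d + 1) := Real.log_nonneg (by linarith)
  obtain ⟨hρ0, hρ1, -, -, h1⟩ := rho_facts hd1
  have hE3 := energy_sp hS n
  rw [← hn, ← hdd] at hE3
  set ρ : ℝ := d / (d + 1) with hρ
  have hρk : ∀ k ∈ range n, 1 / 3 ≤ ρ ^ (k + 1) := by
    intro k hk
    rw [mem_range] at hk
    have h2 : Real.exp (-1) ≤ ρ ^ (k + 1) := by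
      calc Real.exp (-1) ≤ Real.exp (((k + 1 : ℕ) : ℝ) * -(1 / d)) := by
            apply Real.exp_le_exp.2
            have h3 : ((k + 1 : ℕ) : ℝ) ≤ d := Nat.cast_le.2 hk
            have h4 : ((k + 1 : ℕ) : ℝ) * (1 / d) ≤ 1 := by
              rw [mul_one_div, div_le_one (by linarith)]
              exact h3
            linarith
        _ = (Real.exp (-(1 / d))) ^ (k + 1) := by rw [Real.exp_nat_mul]
        _ ≤ ρ ^ (k + 1) := pow_le_pow_left₀ (Real.exp_pos _).le h1 _
    have h3 : (1 : ℝ) / 3 ≤ Real.exp (-1) := by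
      rw [Real.exp_neg, one_div]
      apply inv_anti₀ (Real.exp_pos _)
      have := Real.exp_one_lt_d9
      linarith
    exact h3.trans h2
  set t : ℝ := Real.sqrt (3 * d) with ht
  have ht0 : 0 < t := Real.sqrt_pos.2 (by linarith)
  have htt : t * t = 3 * d := Real.mul_self_sqrt (by linarith)
  have hterm : ∀ k ∈ range n, ‖pw S (k + 1)‖ / ((k : ℝ) + 1) ≤
      t / 2 * ((k : ℝ) + 1)⁻¹ +
        3 / (2 * t) * (ρ ^ (k + 1) / ((k : ℝ) + 1) * ‖pw S (k + 1)‖ ^ 2) := by
    intro k hk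
    have h1 := hρk k hk
    set s : ℝ := ‖pw S (k + 1)‖ with hs
    have hk0 : (0 : ℝ) < (k : ℝ) + 1 := by positivity
    have h2 : s ≤ t / 2 + 3 / (2 * t) * (ρ ^ (k + 1) * s ^ 2) := by
      have h3 : s ^ 2 ≤ 3 * (ρ ^ (k + 1) * s ^ 2) := by nlinarith [sq_nonneg s]
      have h4 : 1 / (2 * t) * s ^ 2 ≤ 1 / (2 * t) * (3 * (ρ ^ (k + 1) * s ^ 2)) :=
        mul_le_mul_of_nonneg_left h3 (by positivity)
      have h5 : s ≤ t / 2 + 1 / (2 * t) * s ^ 2 := by
        have e : t / 2 + 1 / (2 * t) * s ^ 2 - s = (t - s) ^ 2 / (2 * t) := by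
          field_simp
          ring
        have : 0 ≤ (t - s) ^ 2 / (2 * t) := by positivity
        linarith
      have e : 1 / (2 * t) * (3 * (ρ ^ (k + 1) * s ^ 2)) =
          3 / (2 * t) * (ρ ^ (k + 1) * s ^ 2) := by ring
      linarith
    calc s / ((k : ℝ) + 1) ≤ (t / 2 + 3 / (2 * t) * (ρ ^ (k + 1) * s ^ 2)) / ((k : ℝ) + 1) :=
          div_le_div_of_nonneg_right h2 hk0.le
      _ = _ := by ring
  have hharm : ∑ k ∈ range n, ((k : ℝ) + 1)⁻¹ ≤ 1 + Real.log (d + 1) := by
    have h1 := harmonic_le_one_add_log n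
    have h2 : ((harmonic n : ℚ) : ℝ) = ∑ k ∈ range n, ((k : ℝ) + 1)⁻¹ := by
      unfold harmonic
      push_cast
      rfl
    rw [h2] at h1
    have h3 : Real.log n ≤ Real.log (d + 1) := Real.log_le_log (by linarith) (by linarith)
    linarith
  have hsum := sum_le_sum hterm
  rw [sum_add_distrib, ← mul_sum, ← mul_sum] at hsum
  have h1 := mul_le_mul_of_nonneg_left hharm (by positivity : 0 ≤ t / 2)
  have h2 := mul_le_mul_of_nonneg_left hE3 (by positivity : 0 ≤ 3 / (2 * t))
  have e0 : 3 / (2 * t) * d = t / 2 := by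
    rw [div_mul_eq_mul_div, div_eq_div_iff (by positivity) (by norm_num)]
    linarith
  have h3 : 3 / (2 * t) * (xx S + d + d * Real.log (d + 1)) =
      3 / (2 * t) * xx S + t / 2 * (1 + Real.log (d + 1)) := by
    rw [← e0]
    ring
  rw [h3] at h2
  refine hsum.trans ((add_le_add h1 h2).trans (le_of_eq ?_))
  ring

theorem sum_int (S : Finset ℂ) (n : ℕ) (a b : ℝ) :
    ∑ z ∈ S, ∫ φ in a..b, TT n (hat z * em φ) =
      S.card * (b - a) +
        2 * ∑ k ∈ range n, bb n (k + 1) * (pw S (k + 1) * EE a b (k + 1)).re := by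
  simp_rw [int_TT]
  rw [sum_add_distrib, sum_const, nsmul_eq_mul, ← mul_sum, sum_comm]
  congr 2
  apply sum_congr rfl
  intro k _
  rw [← mul_sum, ← Complex.re_sum, ← sum_mul]
  rfl

theorem sum_int_le {S : Finset ℂ} (hS : 1 ≤ S.card) (a b : ℝ) :
    ∑ z ∈ S, ∫ φ in a..b, TT S.card (hat z * em φ) ≤
      S.card * (b - a) + 4 * (Real.sqrt (3 * S.card) * (1 + Real.log (S.card + 1)) +
        3 / (2 * Real.sqrt (3 * S.card)) * xx S) := by
  rw [sum_int]
  have h1 : ∑ k ∈ range S.card, bb S.card (k + 1) * (pw S (k + 1) * EE a b (k + 1)).re ≤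
      ∑ k ∈ range S.card, 2 * (‖pw S (k + 1)‖ / ((k : ℝ) + 1)) := by
    apply sum_le_sum
    intro k _
    have hb0 := bb_nonneg S.card (k + 1)
    have hb1 := bb_le_one S.card (k + 1)
    have h2 : (pw S (k + 1) * EE a b (k + 1)).re ≤ 2 * (‖pw S (k + 1)‖ / ((k : ℝ) + 1)) := by
      refine (Complex.re_le_norm _).trans ?_
      rw [norm_mul]
      have := norm_EE_le (m := k + 1) (by omega) a b
      push_cast at this
      calc ‖pw S (k + 1)‖ * ‖EE a b (k + 1)‖ ≤ ‖pw S (k + 1)‖ * (2 / ((k : ℝ) + 1)) :=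
            mul_le_mul_of_nonneg_left this (norm_nonneg _)
        _ = 2 * (‖pw S (k + 1)‖ / ((k : ℝ) + 1)) := by ring
    have h3 : 0 ≤ 2 * (‖pw S (k + 1)‖ / ((k : ℝ) + 1)) := by positivity
    calc bb S.card (k + 1) * (pw S (k + 1) * EE a b (k + 1)).re ≤
        bb S.card (k + 1) * (2 * (‖pw S (k + 1)‖ / ((k : ℝ) + 1))) :=
          mul_le_mul_of_nonneg_left h2 hb0
      _ ≤ 1 * (2 * (‖pw S (k + 1)‖ / ((k : ℝ) + 1))) := mul_le_mul_of_nonneg_right hb1 h3
      _ = _ := one_mul _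
  rw [← mul_sum] at h1
  have h2 := pw_bound hS
  linarith

/-- the point of the unit circle with the same argument -/
theorem exists_unit (z : ℂ) : ∃ θ : ℝ, z = (‖z‖ : ℂ) * Complex.exp (θ * I) :=
  ⟨Complex.arg z, (Complex.norm_mul_exp_arg_mul_I z).symm⟩

theorem cn_le (S : Finset ℂ) (α β : ℝ) : (cn S α β : ℝ) ≤ S.card := by
  classical
  unfold cn
  exact_mod_cast card_filter_le _ _

/-- the raw upper bound -/
theorem cn_raw {S : Finset ℂ} (hS : 1 ≤ S.card) (h0 : ∀ z ∈ S, z ≠ 0)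
    {α β δ : ℝ} (hαβ : α ≤ β) (hδ : 0 ≤ δ) (hab : β - α + 2 * δ ≤ 2 * Real.pi) :
    (cn S α β : ℝ) * (2 * Real.pi *
        (1 - 2 * Real.sqrt S.card * Real.exp (-(S.card * δ ^ 2 / 10)))) ≤
      S.card * (β - α + 2 * δ) +
        4 * (Real.sqrt (3 * S.card) * (1 + Real.log (S.card + 1)) +
        3 / (2 * Real.sqrt (3 * S.card)) * xx S) +
        4 * Real.sqrt S.card * aa S := by
  classical
  set n := S.card with hnn
  set τ := 2 * Real.sqrt n * Real.exp (-(n * δ ^ 2 / 10)) with hτ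
  have hroot : ∀ z ∈ S, (if InSector α β z then 2 * Real.pi * (1 - τ) else 0) ≤
      (∫ φ in (α - δ)..(β + δ), TT n (hat z * em φ)) + 4 * Real.sqrt n * |Real.log ‖z‖| := by
    intro z hz
    have hz0 := h0 z hz
    obtain ⟨r, w, hr0, hr1, hw, hhat, hzw, hlog, -, -⟩ := hat_polar hz0
    have h1 := int_radial hS hw hr0 hr1 (α - δ) (β + δ)
    rw [← hhat] at h1
    have h2 : 4 * Real.sqrt n * (1 - r) ≤ 4 * Real.sqrt n * |Real.log ‖z‖| :=
      mul_le_mul_of_nonneg_left hlog (mul_nonneg (by norm_num) (Real.sqrt_nonneg _))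
    have h3 : (if InSector α β z then 2 * Real.pi * (1 - τ) else 0) ≤
        ∫ φ in (α - δ)..(β + δ), TT n (w * em φ) := by
      split_ifs with hs
      · obtain ⟨θ, hθ1, hθ2, hθ⟩ := hs
        have hw' : w = Complex.exp (θ * I) := by
          have hnz : (‖z‖ : ℂ) ≠ 0 := Complex.ofReal_ne_zero.2 (norm_pos_iff.2 hz0).ne'
          exact mul_left_cancel₀ hnz (hzw.symm.trans hθ)
        rw [hw']
        exact int_arc hS hθ1 hθ2 hδ hab
      · exact int_TT_nonneg n hw (by linarith)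
    linarith
  have hsum := sum_le_sum hroot
  rw [sum_add_distrib, ← mul_sum, ← sum_filter, sum_const, nsmul_eq_mul] at hsum
  have hA := sum_int_le hS (α - δ) (β + δ)
  have e : (β + δ - (α - δ)) = β - α + 2 * δ := by ring
  rw [e] at hA
  have hD : (S.filter (InSector α β)).card = cn S α β := rfl
  rw [hD] at hsum
  have hE : ∑ z ∈ S, |Real.log ‖z‖| = aa S := rfl
  rw [hE] at hsum
  linarith

/-- the error term -/
noncomputable def err (S : Finset ℂ) : ℝ :=
  4 * (3 / (2 * Real.sqrt (3 * S.card)) * xx S) + 4 * Real.sqrt S.card * aa S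

/-- **the upper bound** -/
theorem cn_upper {S : Finset ℂ} (hS : 1 ≤ S.card) (h0 : ∀ z ∈ S, z ≠ 0)
    {α β : ℝ} (hαβ : α ≤ β) :
    (cn S α β : ℝ) ≤ S.card * (β - α) / (2 * Real.pi) +
      6 * (Real.sqrt S.card * Real.log (2 * S.card)) + err S / (2 * Real.pi) := by
  have hcd := cn_le S α β
  have hπ0 := Real.pi_pos
  have hπ1 := Real.pi_gt_d4
  have hraw := fun (δ : ℝ) (h1 : 0 ≤ δ) h2 => cn_raw hS h0 (δ := δ) hαβ h1 h2
  have hxx := xx_ge hS
  have haa : 0 ≤ aa S := sum_nonneg fun _ _ => abs_nonneg _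
  unfold err
  have hd1 : (1 : ℝ) ≤ (S.card : ℝ) := by exact_mod_cast hS
  set d : ℝ := (S.card : ℝ) with hd
  set N : ℝ := (cn S α β : ℝ) with hN
  have hN0 : 0 ≤ N := Nat.cast_nonneg _
  set L : ℝ := Real.log (2 * d) with hL
  have hl2 : (0.6931471803 : ℝ) < Real.log 2 := Real.log_two_gt_d9
  have hL0 : (0.693 : ℝ) ≤ L := by
    have : Real.log 2 ≤ L := Real.log_le_log (by norm_num) (by linarith)
    linarith
  set s : ℝ := Real.sqrt d with hs
  have hss : s * s = d := Real.mul_self_sqrt (by linarith)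
  have hs1 : 1 ≤ s := Real.one_le_sqrt.2 hd1
  set t : ℝ := Real.sqrt (3 * d) with ht
  have ht0 : 0 < t := Real.sqrt_pos.2 (by linarith)
  have htt : t * t = 3 * d := Real.mul_self_sqrt (by linarith)
  set q : ℝ := Real.sqrt (15 * L) with hq
  have hqq : q * q = 15 * L := Real.mul_self_sqrt (by linarith)
  have hq0 : 0 ≤ q := Real.sqrt_nonneg _
  have hqL : q ≤ 4.66 * L := by
    rw [hq, Real.sqrt_le_left (by linarith)]
    nlinarith
  set δ : ℝ := q / s with hδ
  have hδ0 : 0 ≤ δ := by positivity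
  have hdδ : d * δ = s * q := by
    rw [hδ, ← hss]
    field_simp
  have hdδ2 : d * δ ^ 2 = 15 * L := by
    rw [hδ, ← hqq, ← hss]
    field_simp
  have hsL : 0 ≤ s * L := by positivity
  have h3d : t ≤ 1.7321 * s := by
    rw [ht, Real.sqrt_mul (by norm_num)]
    apply mul_le_mul_of_nonneg_right _ (by linarith)
    rw [Real.sqrt_le_left (by norm_num)]
    norm_num
  have hlog0 : 0 ≤ Real.log (d + 1) := Real.log_nonneg (by linarith)
  have hlog : 1 + Real.log (d + 1) ≤ 2.4431 * L := by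
    have h1 : Real.log (d + 1) ≤ L := Real.log_le_log (by linarith) (by linarith)
    have h2 : Real.log 2 ≤ L := Real.log_le_log (by norm_num) (by linarith)
    linarith
  have hlow : -(2 * (1.7321 * (2.4431 * (s * L)))) ≤ 4 * (3 / (2 * t) * xx S) := by
    have e0 : 3 / (2 * t) * d = t / 2 := by
      rw [div_mul_eq_mul_div, div_eq_div_iff (by positivity) (by norm_num)]
      linarith
    have h1 := mul_nonneg (by positivity : 0 ≤ 3 / (2 * t)) hxx
    have e1 : 3 / (2 * t) * (xx S + d + d * Real.log (d + 1)) =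
        3 / (2 * t) * xx S + t / 2 * (1 + Real.log (d + 1)) := by
      rw [← e0]
      ring
    rw [e1] at h1
    have h2 : t * (1 + Real.log (d + 1)) ≤ 1.7321 * s * (2.4431 * L) :=
      mul_le_mul h3d hlog (by linarith) (by positivity)
    linarith
  have hA0 : 0 ≤ 4 * s * aa S := by positivity
  by_cases hbig : β - α + 2 * δ ≤ 2 * Real.pi
  swap
  · have hbig' := not_le.1 hbig
    have h1 : d * (2 * Real.pi) ≤ d * (β - α + 2 * δ) :=
      mul_le_mul_of_nonneg_left hbig'.le (by linarith)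
    have h2 : d ≤ d * (β - α) / (2 * Real.pi) + s * q / Real.pi := by
      have e : d * (β - α) / (2 * Real.pi) + s * q / Real.pi =
          (d * (β - α + 2 * δ)) / (2 * Real.pi) := by
        rw [mul_add, ← mul_assoc d 2 δ, mul_comm d 2, mul_assoc 2 d δ, hdδ]
        field_simp
      rw [e, le_div_iff₀ (by positivity)]
      exact h1
    have h3 : s * q / Real.pi ≤ 2 * (s * L) := by
      rw [div_le_iff₀ hπ0]
      have h4 : s * q ≤ s * (4.66 * L) := mul_le_mul_of_nonneg_left hqL (by linarith)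
      nlinarith
    have h4 : -(4 * (s * L)) ≤
        (4 * (3 / (2 * t) * xx S) + 4 * s * aa S) / (2 * Real.pi) := by
      rw [le_div_iff₀ (by positivity)]
      have h5 : 4 * (s * L) * (2 * 3.1415) ≤ 4 * (s * L) * (2 * Real.pi) :=
        mul_le_mul_of_nonneg_left (by linarith) (by positivity)
      linarith
    linarith
  · have hr := hraw δ hδ0 hbig
    have hexp : Real.exp (-(d * δ ^ 2 / 10)) = Real.exp (-(1.5 * L)) := by
      rw [hdδ2]
      congr 1
      ring
    rw [hexp] at hr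
    have hτ : d * (2 * s * Real.exp (-(1.5 * L))) ≤ 0.75 := by
      have h1 : Real.exp (-(1.5 * L)) = (Real.exp (-(L / 2))) ^ 3 := by
        rw [← Real.exp_nat_mul]
        congr 1
        push_cast
        ring
      have h2 : Real.exp (-(L / 2)) = 1 / Real.sqrt (2 * d) := by
        rw [Real.exp_neg, Real.exp_half, hL, Real.exp_log (by linarith), one_div]
      have h3 : Real.sqrt (2 * d) = Real.sqrt 2 * s := by
        rw [hs, Real.sqrt_mul (by norm_num)]
      have h4 : (1.414 : ℝ) ≤ Real.sqrt 2 := by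
        apply Real.le_sqrt_of_sq_le
        norm_num
      have h5 : Real.exp (-(L / 2)) ≤ 1 / (1.414 * s) := by
        rw [h2, h3]
        apply one_div_le_one_div_of_le (by positivity)
        exact mul_le_mul_of_nonneg_right h4 (by linarith)
      have h6 : (Real.exp (-(L / 2))) ^ 3 ≤ (1 / (1.414 * s)) ^ 3 :=
        pow_le_pow_left₀ (Real.exp_pos _).le h5 3
      rw [h1]
      calc d * (2 * s * (Real.exp (-(L / 2))) ^ 3) ≤ d * (2 * s * (1 / (1.414 * s)) ^ 3) := by
            apply mul_le_mul_of_nonneg_left _ (by linarith)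
            exact mul_le_mul_of_nonneg_left h6 (by linarith)
        _ = 2 / 1.414 ^ 3 := by
            rw [← hss]
            field_simp
        _ ≤ 0.75 := by norm_num
    have hNτ : N * (2 * s * Real.exp (-(1.5 * L))) ≤ 0.75 :=
      (mul_le_mul_of_nonneg_right hcd (by positivity)).trans hτ
    have hNτ' : N * (2 * Real.pi * (1 - 2 * s * Real.exp (-(1.5 * L)))) ≥
        N * (2 * Real.pi) - 2 * Real.pi * 0.75 := by
      have h1 := mul_le_mul_of_nonneg_left hNτ (by positivity : 0 ≤ 2 * Real.pi)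
      have e : N * (2 * Real.pi * (1 - 2 * s * Real.exp (-(1.5 * L)))) =
          N * (2 * Real.pi) - 2 * Real.pi * (N * (2 * s * Real.exp (-(1.5 * L)))) := by ring
      rw [e]
      linarith
    have hE : t * (1 + Real.log (d + 1)) ≤ 1.7321 * s * (2.4431 * L) :=
      mul_le_mul h3d hlog (by linarith) (by positivity)
    have hsq : s * q ≤ 4.66 * (s * L) := by
      calc s * q ≤ s * (4.66 * L) := mul_le_mul_of_nonneg_left hqL (by linarith)
        _ = 4.66 * (s * L) := by ring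
    have hone : (0.693 : ℝ) ≤ s * L := by
      calc (0.693 : ℝ) ≤ 1 * L := by linarith
        _ ≤ s * L := mul_le_mul_of_nonneg_right hs1 (by linarith)
    have htot : N * (2 * Real.pi) ≤ d * (β - α) + 2 * Real.pi * 0.75 + 2 * (4.66 * (s * L)) +
        4 * (1.7321 * s * (2.4431 * L)) + (4 * (3 / (2 * t) * xx S) + 4 * s * aa S) := by
      have e : d * (β - α + 2 * δ) = d * (β - α) + 2 * (s * q) := by
        rw [mul_add, ← mul_assoc d 2 δ, mul_comm d 2, mul_assoc 2 d δ, hdδ]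
      rw [e] at hr
      linarith
    obtain ⟨E, hEE⟩ : ∃ E : ℝ, E = 4 * (3 / (2 * t) * xx S) + 4 * s * aa S := ⟨_, rfl⟩
    rw [← hEE] at htot ⊢
    have hfin : N * (2 * Real.pi) ≤ (d * (β - α) / (2 * Real.pi) + 6 * (s * L) +
        E / (2 * Real.pi)) * (2 * Real.pi) := by
      have e : (d * (β - α) / (2 * Real.pi) + 6 * (s * L) + E / (2 * Real.pi)) * (2 * Real.pi) =
          d * (β - α) + 6 * (s * L) * (2 * Real.pi) + E := by
        have h2π : 2 * Real.pi ≠ 0 := by positivity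
        rw [add_mul, add_mul, div_mul_cancel₀ _ h2π, div_mul_cancel₀ _ h2π]
      rw [e]
      have h1 : 6 * (s * L) * (2 * 3.1415) ≤ 6 * (s * L) * (2 * Real.pi) := by
        apply mul_le_mul_of_nonneg_left _ (by positivity)
        linarith
      have hπ2 := Real.pi_lt_d4
      have e2 : 4 * (1.7321 * s * (2.4431 * L)) = (4 * 1.7321 * 2.4431) * (s * L) := by ring
      rw [e2] at htot
      have h5 : 2 * Real.pi * 0.75 ≤ 6.81 * (s * L) := by linarith
      linarith
    exact le_of_mul_le_mul_right hfin (by positivity)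

/-- every number is in one of two complementary sectors -/
theorem sector_cases {α β : ℝ} (z : ℂ) :
    InSector α β z ∨ InSector β (α + 2 * Real.pi) z := by
  have hπ := Real.pi_pos
  obtain ⟨θ₀, hθ₀⟩ := exists_unit z
  set k : ℤ := ⌊(θ₀ - α) / (2 * Real.pi)⌋ with hk
  set θ : ℝ := θ₀ - k * (2 * Real.pi) with hθ
  have h3 : α ≤ θ := by
    have := Int.floor_le ((θ₀ - α) / (2 * Real.pi))
    rw [le_div_iff₀ (by positivity)] at this
    rw [hθ]
    linarith
  have h4 : θ ≤ α + 2 * Real.pi := by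
    have := (Int.lt_floor_add_one ((θ₀ - α) / (2 * Real.pi))).le
    rw [div_le_iff₀ (by positivity)] at this
    rw [hθ]
    linarith
  have h5 : z = (‖z‖ : ℂ) * Complex.exp (θ * Complex.I) := by
    have e : (θ : ℂ) * Complex.I = (θ₀ : ℂ) * Complex.I - (k : ℂ) * (2 * Real.pi * Complex.I) := by
      rw [hθ]
      push_cast
      ring
    rw [e, Complex.exp_periodic.sub_int_mul_eq]
    exact hθ₀
  rcases le_total θ β with h | h
  · exact Or.inl ⟨θ, h3, h, h5⟩
  · exact Or.inr ⟨θ, h, h4, h5⟩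

theorem cn_add (S : Finset ℂ) (α β : ℝ) :
    (S.card : ℝ) ≤ cn S α β + cn S β (α + 2 * Real.pi) := by
  classical
  unfold cn
  have h3 : S ⊆ S.filter (InSector α β) ∪ S.filter (InSector β (α + 2 * Real.pi)) := by
    intro z hz
    rw [mem_union, mem_filter, mem_filter]
    rcases sector_cases (α := α) (β := β) z with h | h
    · exact Or.inl ⟨hz, h⟩
    · exact Or.inr ⟨hz, h⟩
  have h4 := (card_le_card h3).trans (card_union_le _ _)
  exact_mod_cast h4

/-- **the discrepancy** -/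
theorem cn_abs {S : Finset ℂ} (hS : 1 ≤ S.card) (h0 : ∀ z ∈ S, z ≠ 0)
    {α β : ℝ} (h1 : α ≤ β) (h2 : β ≤ α + 2 * Real.pi) :
    |(cn S α β : ℝ) - S.card * (β - α) / (2 * Real.pi)| ≤
      6 * (Real.sqrt S.card * Real.log (2 * S.card)) + err S / (2 * Real.pi) := by
  have h3 := cn_upper hS h0 h1
  have h4 := cn_upper hS h0 h2
  have h5 := cn_add S α β
  have hπ := Real.pi_pos
  have e : (S.card : ℝ) * (α + 2 * Real.pi - β) / (2 * Real.pi) =
      S.card - S.card * (β - α) / (2 * Real.pi) := by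
    field_simp
    ring
  rw [e] at h4
  rw [abs_le]
  constructor <;> linarith

end Pool.Agent.Helper42.RD
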