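import Mathlib
import Pool.Agent.Helper42.RD.Sets

/-!
# The mean discrepancy over the embeddings of a number field
-/

set_option autoImplicit false
set_option maxHeartbeats 1000000

namespace Pool.Agent.Helper42.RD

open Finset NumberField Height

variable {L : Type*} [Field L] [NumberField L]

set_option linter.unusedSectionVars false

theorem prod_emb (g : ℝ → ℝ) (x : L) :
    ∏ σ : L →+* ℂ, g ‖σ x‖ = ∏ v : InfinitePlace L, g (v x) ^ v.mult := by
  classical
  rw [← Finset.prod_fiberwise Finset.univ (fun σ : L →+* ℂ => InfinitePlace.mk σ)]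
  apply prod_congr rfl
  intro v _
  rw [prod_congr rfl (g := fun _ => g (v x)) (fun σ hσ => by
    rw [mem_filter] at hσ
    rw [← hσ.2, InfinitePlace.apply]), prod_const, InfinitePlace.card_filter_mk_eq]

/-- the finite part of the height -/
noncomputable def fp (x : L) : ℝ := ∏ᶠ v : FinitePlace L, max (v x) 1

theorem fin_max (x : L) : (fun v : FinitePlace L => max (v x) 1).HasFiniteMulSupport := by
  rcases eq_or_ne x 0 with rfl | hx
  · simp [Function.HasFiniteMulSupport]
  · have h := FinitePlace.hasFiniteMulSupport hx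
    refine h.subset ?_
    intro v hv
    rw [Function.mem_mulSupport] at hv ⊢
    intro h1
    apply hv
    rw [h1, max_self]

theorem one_le_fp (x : L) : 1 ≤ fp x := one_le_finprod fun _ => le_max_right _ _

theorem prod_sub_le {x y : L} (hxy : x ≠ y) :
    ∏ᶠ v : FinitePlace L, v (x - y) ≤ fp x * fp y := by
  unfold fp
  rw [← finprod_mul_distrib (fin_max x) (fin_max y)]
  have hz : x - y ≠ 0 := sub_ne_zero.2 hxy
  apply finprod_le_finprod (FinitePlace.hasFiniteMulSupport hz)
    (fun v => apply_nonneg v _) ((fin_max x).mul (fin_max y))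
  intro v
  have h1 : v (x - y) ≤ max (v x) (v y) := by
    have h2 := FinitePlace.add_le v x (-y)
    rw [← sub_eq_add_neg] at h2
    have h3 : v (-y) = v y := by
      have h4 : v (-y) = v (-1) * v y := by rw [← map_mul, neg_one_mul]
      have h5 : v (-1) * v (-1) = 1 := by rw [← map_mul, neg_one_mul, neg_neg, map_one]
      have h6 : v (-1) = 1 := by
        rcases mul_self_eq_one_iff.mp h5 with h | h
        · exact h
        · have := apply_nonneg v (-1)
          linarith
      rw [h4, h6, one_mul]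
    rwa [h3] at h2
  refine h1.trans (max_le ?_ ?_)
  · calc v x ≤ max (v x) 1 := le_max_left _ _
      _ = max (v x) 1 * 1 := (mul_one _).symm
      _ ≤ max (v x) 1 * max (v y) 1 :=
          mul_le_mul_of_nonneg_left (le_max_right _ _) (by positivity)
  · calc v y ≤ max (v y) 1 := le_max_left _ _
      _ = 1 * max (v y) 1 := (one_mul _).symm
      _ ≤ max (v x) 1 * max (v y) 1 :=
          mul_le_mul_of_nonneg_right (le_max_right _ _) (by positivity)

/-- the archimedean part of the height -/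
noncomputable def ai (x : L) : ℝ := ∑ σ : L →+* ℂ, Real.log (max 1 ‖σ x‖)

theorem ai_nonneg (x : L) : 0 ≤ ai x :=
  sum_nonneg fun _ _ => Real.log_nonneg (le_max_left _ _)

theorem logHeight_parts (x : L) : logHeight₁ x = ai x + Real.log (fp x) := by
  rw [logHeight₁_eq_log_mulHeight₁, NumberField.mulHeight₁_eq]
  have h1 : ∏ v : InfinitePlace L, max (v x) 1 ^ v.mult = ∏ σ : L →+* ℂ, max 1 ‖σ x‖ := by
    rw [← prod_emb (fun t => max t 1) x]
    exact prod_congr rfl fun σ _ => max_comm _ _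
  rw [h1]
  have h2 : (0 : ℝ) < ∏ σ : L →+* ℂ, max 1 ‖σ x‖ :=
    prod_pos fun σ _ => lt_of_lt_of_le one_pos (le_max_left _ _)
  have h3 : 0 < fp x := one_pos.trans_le (one_le_fp x)
  show Real.log ((∏ σ : L →+* ℂ, max 1 ‖σ x‖) * fp x) = ai x + Real.log (fp x)
  rw [Real.log_mul h2.ne' (ne_of_gt h3), Real.log_prod (fun σ _ =>
    (lt_of_lt_of_le one_pos (le_max_left (1 : ℝ) ‖σ x‖)).ne')]
  rfl

/-- the product formula in the form of a lower bound for differences -/
theorem liouville {x y : L} (hxy : x ≠ y) :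
    -(∑ σ : L →+* ℂ, Real.log ‖σ x - σ y‖) ≤ Real.log (fp x) + Real.log (fp y) := by
  have hz : x - y ≠ 0 := sub_ne_zero.2 hxy
  have h1 := prod_abs_eq_one hz
  have h2 : ∏ v : InfinitePlace L, v (x - y) ^ v.mult = ∏ σ : L →+* ℂ, ‖σ (x - y)‖ :=
    (prod_emb (fun t => t) (x - y)).symm
  rw [h2] at h1
  have hpos : ∀ σ : L →+* ℂ, 0 < ‖σ (x - y)‖ := fun σ =>
    norm_pos_iff.2 ((map_ne_zero σ).2 hz)
  have h3 : (0 : ℝ) < ∏ σ : L →+* ℂ, ‖σ (x - y)‖ := prod_pos fun σ _ => hpos σ
  have h4 : 0 < ∏ᶠ v : FinitePlace L, v (x - y) := by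
    by_contra hcon
    have := mul_nonpos_of_nonneg_of_nonpos h3.le (not_lt.1 hcon)
    linarith
  have h5 := congrArg Real.log h1
  rw [Real.log_mul h3.ne' h4.ne', Real.log_one, Real.log_prod (fun σ _ => (hpos σ).ne')] at h5
  have h6 := Real.log_le_log h4 (prod_sub_le hxy)
  have hfx : 0 < fp x := one_pos.trans_le (one_le_fp x)
  have hfy : 0 < fp y := one_pos.trans_le (one_le_fp y)
  rw [Real.log_mul hfx.ne' hfy.ne'] at h6
  have h7 : ∑ σ : L →+* ℂ, Real.log ‖σ x - σ y‖ = ∑ σ : L →+* ℂ, Real.log ‖σ (x - y)‖ :=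
    sum_congr rfl fun σ _ => by rw [map_sub]
  rw [h7]
  linarith

open Classical in
/-- the image under an embedding -/
noncomputable def img (T : Finset L) (σ : L →+* ℂ) : Finset ℂ := T.image σ

theorem img_card (T : Finset L) (σ : L →+* ℂ) : (img T σ).card = T.card := by
  classical
  unfold img
  exact card_image_of_injective T σ.injective

theorem img_sum (T : Finset L) (σ : L →+* ℂ) (g : ℂ → ℝ) :
    ∑ z ∈ img T σ, g z = ∑ x ∈ T, g (σ x) := by
  classical
  unfold img
  exact sum_image fun x _ y _ h => σ.injective h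

theorem sum_hh (T : Finset L) : ∑ σ : L →+* ℂ, hh (img T σ) = ∑ x ∈ T, ai x := by
  unfold hh ai
  simp_rw [img_sum]
  rw [sum_comm]

theorem sum_aa (T : Finset L) :
    ∑ σ : L →+* ℂ, aa (img T σ) ≤ ∑ x ∈ T, (ai x + ai x⁻¹) := by
  unfold aa
  simp_rw [img_sum]
  rw [sum_comm]
  apply sum_le_sum
  intro x _
  unfold ai
  rw [← sum_add_distrib]
  apply sum_le_sum
  intro σ _
  rw [map_inv₀, norm_inv]
  rcases le_total ‖σ x‖ 1 with h | h
  · rcases eq_or_ne (σ x) 0 with h0 | h0
    · rw [h0]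
      simp
    · have hp : 0 < ‖σ x‖ := norm_pos_iff.2 h0
      rw [abs_of_nonpos (Real.log_nonpos hp.le h), max_eq_left h, Real.log_one,
        max_eq_right (one_le_inv₀ hp |>.2 h), Real.log_inv]
      linarith
  · rw [abs_of_nonneg (Real.log_nonneg h), max_eq_right h]
    have : 0 ≤ Real.log (max 1 ‖σ x‖⁻¹) := Real.log_nonneg (le_max_left _ _)
    linarith

theorem sum_en (T : Finset L) :
    -(∑ σ : L →+* ℂ, en (img T σ)) ≤ 2 * ((T.card : ℝ) - 1) * ∑ x ∈ T, Real.log (fp x) := by
  classical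
  have h1 : ∑ σ : L →+* ℂ, en (img T σ) =
      ∑ x ∈ T, ∑ y ∈ T, ∑ σ : L →+* ℂ, Real.log ‖σ x - σ y‖ := by
    unfold en
    simp_rw [img_sum]
    rw [sum_comm]
    apply sum_congr rfl
    intro x _
    rw [sum_comm]
  rw [h1, ← sum_neg_distrib]
  have h2 : ∀ x ∈ T, -(∑ y ∈ T, ∑ σ : L →+* ℂ, Real.log ‖σ x - σ y‖) ≤
      ∑ y ∈ T, ((Real.log (fp x) + Real.log (fp y)) -
        if y = x then (Real.log (fp x) + Real.log (fp y)) else 0) := by
    intro x _
    rw [← sum_neg_distrib]
    apply sum_le_sum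
    intro y _
    by_cases h : y = x
    · subst h
      simp
    · rw [if_neg h, sub_zero]
      exact liouville (fun h' => h h'.symm)
  refine (sum_le_sum h2).trans (le_of_eq ?_)
  have h3 : ∀ x ∈ T, ∑ y ∈ T, ((Real.log (fp x) + Real.log (fp y)) -
        if y = x then (Real.log (fp x) + Real.log (fp y)) else 0) =
      (T.card : ℝ) * Real.log (fp x) + ∑ y ∈ T, Real.log (fp y) - 2 * Real.log (fp x) := by
    intro x hx
    rw [sum_sub_distrib, sum_add_distrib, sum_const, nsmul_eq_mul, sum_ite_eq' T x, if_pos hx]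
    ring
  rw [sum_congr rfl h3, sum_sub_distrib, sum_add_distrib, sum_const, nsmul_eq_mul, ← mul_sum,
    ← mul_sum]
  ring

/-- **the mean discrepancy** -/
theorem mean_disc (T : Finset L) (hT : 1 ≤ T.card) (h0 : ∀ x ∈ T, x ≠ 0) {H : ℝ}
    (hH : ∀ x ∈ T, logHeight₁ x = H) (a b : (L →+* ℂ) → ℝ)
    (hab : ∀ σ, a σ ≤ b σ ∧ b σ ≤ a σ + 2 * Real.pi) :
    ∑ σ : L →+* ℂ, |(cn (img T σ) (a σ) (b σ) : ℝ) - T.card * (b σ - a σ) / (2 * Real.pi)| ≤
      Real.sqrt T.card * (6 * Real.log (2 * T.card) * Module.finrank ℚ L +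
        3 * (T.card * H)) := by
  classical
  have hcard : (Fintype.card (L →+* ℂ) : ℝ) = Module.finrank ℚ L := by
    exact_mod_cast NumberField.Embeddings.card L ℂ
  have hD1 : (1 : ℝ) ≤ (T.card : ℝ) := by exact_mod_cast hT
  have h1 : ∀ σ : L →+* ℂ,
      |(cn (img T σ) (a σ) (b σ) : ℝ) - T.card * (b σ - a σ) / (2 * Real.pi)| ≤
        6 * (Real.sqrt T.card * Real.log (2 * T.card)) + err (img T σ) / (2 * Real.pi) := by
    intro σ
    have h2 := cn_abs (S := img T σ) (by rw [img_card]; exact hT) (by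
      intro z hz
      unfold img at hz
      rw [mem_image] at hz
      obtain ⟨x, hx, rfl⟩ := hz
      exact (map_ne_zero σ).2 (h0 x hx)) (hab σ).1 (hab σ).2
    rwa [img_card] at h2
  have h2 := sum_le_sum fun (σ : L →+* ℂ) (_ : σ ∈ univ) => h1 σ
  rw [sum_add_distrib, sum_const, card_univ, nsmul_eq_mul, hcard, ← sum_div] at h2
  -- the sum of the errors
  set D : ℝ := (T.card : ℝ) with hD
  set t : ℝ := Real.sqrt (3 * D) with ht
  set s : ℝ := Real.sqrt D with hs
  have ht0 : 0 < t := Real.sqrt_pos.2 (by linarith)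
  have htt : t * t = 3 * D := Real.mul_self_sqrt (by linarith)
  have hs0 : 0 < s := Real.sqrt_pos.2 (by linarith)
  have hss : s * s = D := Real.mul_self_sqrt (by linarith)
  have hHinv : ∀ x ∈ T, logHeight₁ x⁻¹ = H := by
    intro x hx
    rw [logHeight₁_eq_log_mulHeight₁, mulHeight₁_inv, ← logHeight₁_eq_log_mulHeight₁]
    exact hH x hx
  have hfp : ∀ x : L, 0 ≤ Real.log (fp x) := fun x => Real.log_nonneg (one_le_fp x)
  have hai : ∀ x ∈ T, ai x ≤ H := by
    intro x hx
    have := logHeight_parts x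
    rw [hH x hx] at this
    have := hfp x
    linarith
  have hai' : ∀ x ∈ T, ai x⁻¹ ≤ H := by
    intro x hx
    have := logHeight_parts x⁻¹
    rw [hHinv x hx] at this
    have := hfp x⁻¹
    linarith
  have hxx : ∑ σ : L →+* ℂ, xx (img T σ) ≤ 2 * D * (D * H) := by
    have e1 : ∑ σ : L →+* ℂ, xx (img T σ) =
        2 * D * ∑ x ∈ T, ai x - ∑ σ : L →+* ℂ, en (img T σ) := by
      unfold xx
      simp_rw [img_card]
      rw [sum_sub_distrib, ← mul_sum, sum_hh]
    have e2 := sum_en T
    have e3 : ∑ x ∈ T, ai x + ∑ x ∈ T, Real.log (fp x) = D * H := by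
      rw [← sum_add_distrib, sum_congr rfl (g := fun _ => H) (fun x hx => by
        rw [← logHeight_parts, hH x hx]), sum_const, nsmul_eq_mul]
    have e4 : 0 ≤ ∑ x ∈ T, Real.log (fp x) := sum_nonneg fun x _ => hfp x
    rw [e1, ← e3]
    nlinarith
  have haa : ∑ σ : L →+* ℂ, aa (img T σ) ≤ 2 * (D * H) := by
    refine (sum_aa T).trans ?_
    calc ∑ x ∈ T, (ai x + ai x⁻¹) ≤ ∑ _x ∈ T, (2 * H) :=
          sum_le_sum fun x hx => by
            have := hai x hx
            have := hai' x hx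
            linarith
      _ = 2 * (D * H) := by rw [sum_const, nsmul_eq_mul]; ring
  have hDH : 0 ≤ D * H := by
    have : 0 ≤ ∑ σ : L →+* ℂ, aa (img T σ) :=
      sum_nonneg fun σ _ => sum_nonneg fun _ _ => abs_nonneg _
    linarith
  have herr : ∑ σ : L →+* ℂ, err (img T σ) ≤ s * (15 * (D * H)) := by
    have e1 : ∑ σ : L →+* ℂ, err (img T σ) =
        4 * (3 / (2 * t) * ∑ σ : L →+* ℂ, xx (img T σ)) +
          4 * s * ∑ σ : L →+* ℂ, aa (img T σ) := by
      unfold err
      simp_rw [img_card]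
      rw [sum_add_distrib, ← mul_sum, ← mul_sum, ← mul_sum]
    have e2 : 4 * (3 / (2 * t) * ∑ σ : L →+* ℂ, xx (img T σ)) ≤
        4 * (3 / (2 * t) * (2 * D * (D * H))) := by
      apply mul_le_mul_of_nonneg_left _ (by norm_num)
      exact mul_le_mul_of_nonneg_left hxx (by positivity)
    have e3 : 3 / (2 * t) * (2 * D * (D * H)) = t * (D * H) := by
      have : 3 / (2 * t) * (2 * D) = t := by
        rw [div_mul_eq_mul_div, div_eq_iff (by positivity)]
        linarith
      calc 3 / (2 * t) * (2 * D * (D * H)) = (3 / (2 * t) * (2 * D)) * (D * H) := by ring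
        _ = t * (D * H) := by rw [this]
    have e4 : t ≤ 1.7321 * s := by
      rw [ht, Real.sqrt_mul (by norm_num)]
      apply mul_le_mul_of_nonneg_right _ hs0.le
      rw [Real.sqrt_le_left (by norm_num)]
      norm_num
    have e5 : t * (D * H) ≤ 1.7321 * s * (D * H) := mul_le_mul_of_nonneg_right e4 hDH
    have e6 : 4 * s * ∑ σ : L →+* ℂ, aa (img T σ) ≤ 4 * s * (2 * (D * H)) :=
      mul_le_mul_of_nonneg_left haa (by positivity)
    have e7 : 0 ≤ s * (D * H) := by positivity
    rw [e1]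
    rw [e3] at e2
    linarith
  have hπ := Real.pi_gt_three
  have h3 : (∑ σ : L →+* ℂ, err (img T σ)) / (2 * Real.pi) ≤ s * (3 * (D * H)) := by
    rw [div_le_iff₀ (by positivity)]
    refine herr.trans ?_
    have : 0 ≤ s * (D * H) := by positivity
    nlinarith
  calc _ ≤ _ := h2
    _ ≤ (Module.finrank ℚ L : ℝ) * (6 * (s * Real.log (2 * D))) + s * (3 * (D * H)) := by
        linarith
    _ = _ := by ring

end Pool.Agent.Helper42.RD
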