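import Mathlib
import Pool.Agent.H58R.Loc
import Pool.Agent.Helper42.RD.NF

/-!
# Relative conjugates
-/

set_option autoImplicit false
set_option maxHeartbeats 1000000

namespace Pool.Agent.Helper42.RD

open Finset NumberField Height Module
open Pool.Agent.H58P (Qb ht)

/-- the conjugates of `α` over the field `F` -/
def conj (F : IntermediateField ℚ (AlgebraicClosure ℚ)) (α : AlgebraicClosure ℚ) :
    Set (AlgebraicClosure ℚ) :=
  (minpoly F α).rootSet (AlgebraicClosure ℚ)

/-- the field generated over `ℚ` by the conjugates of `α` over the field `F` -/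
noncomputable def conjField (F : IntermediateField ℚ (AlgebraicClosure ℚ))
    (α : AlgebraicClosure ℚ) : IntermediateField ℚ (AlgebraicClosure ℚ) :=
  IntermediateField.adjoin ℚ (conj F α)

theorem alg (F : IntermediateField ℚ (AlgebraicClosure ℚ)) (α : AlgebraicClosure ℚ) :
    IsIntegral F α :=
  ((AlgebraicClosure.isAlgebraic ℚ).isAlgebraic α).isIntegral.tower_top

theorem conj_finite (F : IntermediateField ℚ (AlgebraicClosure ℚ)) (α : AlgebraicClosure ℚ) :
    (conj F α).Finite := (minpoly F α).rootSet_finite _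

theorem conj_ncard (F : IntermediateField ℚ (AlgebraicClosure ℚ)) (α : AlgebraicClosure ℚ) :
    (conj F α).ncard = (minpoly F α).natDegree := by
  classical
  have h1 : (minpoly F α).Separable := (minpoly.irreducible (alg F α)).separable
  have h2 := Polynomial.card_rootSet_eq_natDegree (K := AlgebraicClosure ℚ) h1
    (IsAlgClosed.splits _)
  unfold conj
  rw [← h2, ← Nat.card_coe_set_eq, Nat.card_eq_fintype_card]

theorem conjField_nf (F : IntermediateField ℚ (AlgebraicClosure ℚ)) (α : AlgebraicClosure ℚ) :
    NumberField (conjField F α) := by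
  have : Finite (conj F α) := conj_finite F α
  exact
    { to_charZero := inferInstance
      to_finiteDimensional := IntermediateField.finiteDimensional_adjoin fun y _ =>
        ((AlgebraicClosure.isAlgebraic ℚ).isAlgebraic y).isIntegral }

theorem conj_ne_zero {F : IntermediateField ℚ (AlgebraicClosure ℚ)} {α w : AlgebraicClosure ℚ}
    (hα : α ≠ 0) (hw : w ∈ conj F α) : w ≠ 0 := by
  rintro rfl
  unfold conj at hw
  rw [Polynomial.mem_rootSet] at hw
  have h1 : (minpoly F α).coeff 0 = 0 := by
    have := hw.2
    rw [← Polynomial.coeff_zero_eq_aeval_zero'] at this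
    exact (map_eq_zero _).1 this
  exact minpoly.coeff_zero_ne_zero (alg F α) hα h1

theorem conj_ht {F : IntermediateField ℚ (AlgebraicClosure ℚ)} {α w : AlgebraicClosure ℚ}
    (hw : w ∈ conj F α) : ht w = ht α := by
  have h1 : IsConjRoot F α w := by
    rw [isConjRoot_iff_mem_minpoly_rootSet (alg F α)]
    exact hw
  have hA : Algebra.IsAlgebraic ℚ (AlgebraicClosure ℚ) := AlgebraicClosure.isAlgebraic ℚ
  have hC : IsAlgClosure ℚ (AlgebraicClosure ℚ) := ⟨inferInstance, hA⟩
  have hN : Normal ℚ (AlgebraicClosure ℚ) := IsAlgClosure.normal ℚ (AlgebraicClosure ℚ)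
  have hN2 : Normal F (AlgebraicClosure ℚ) := Normal.tower_top_of_normal ℚ F (AlgebraicClosure ℚ)
  obtain ⟨σ, hσ⟩ := isConjRoot_iff_exists_algEquiv.1 h1
  rw [← hσ]
  have := Pool.Agent.H58B.ht_conj (σ.restrictScalars ℚ) w
  exact this.symm

theorem lh_eq (L : IntermediateField ℚ (AlgebraicClosure ℚ)) [NumberField L] (x : L) :
    logHeight₁ x = finrank ℚ L * ht (x : AlgebraicClosure ℚ) := by
  have h1 := Pool.Agent.Helper259.AbsHt.val_eq L ![1, x]
  have h2 : (fun i => ((![1, x] i : L) : AlgebraicClosure ℚ)) = ![1, (x : AlgebraicClosure ℚ)] := by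
    funext i
    fin_cases i <;> simp
  rw [h2] at h1
  have h3 := Pool.Agent.Helper259.AbsHt.finrank_pos' L
  rw [ht, h1, logHeight₁_eq_logHeight, logHeight_swap]
  field_simp

/-- the number of the conjugates of `α` over `F` which the embedding `σ` of the field
`conjField F α` maps to the sector `a ≤ arg z ≤ b` -/
noncomputable def countIn (F : IntermediateField ℚ (AlgebraicClosure ℚ)) (α : AlgebraicClosure ℚ)
    (σ : conjField F α →+* ℂ) (a b : ℝ) : ℕ :=
  {w : conjField F α | (w : AlgebraicClosure ℚ) ∈ conj F α ∧ InSector a b (σ w)}.ncard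

/-- the mean, over all embeddings `σ` of the field `conjField F α`, of the absolute value of the
difference between the number of conjugates of `α` over `F` which `σ` maps to the sector
`a σ ≤ arg z ≤ b σ`, and the expected number `[F(α) : F] (b σ - a σ) / (2 π)` -/
noncomputable def meanDisc (F : IntermediateField ℚ (AlgebraicClosure ℚ)) (α : AlgebraicClosure ℚ)
    (a b : (conjField F α →+* ℂ) → ℝ) : ℝ :=
  (∑ᶠ σ : conjField F α →+* ℂ, |(countIn F α σ (a σ) (b σ) : ℝ) -
    (minpoly F α).natDegree * (b σ - a σ) / (2 * Real.pi)|) / Nat.card (conjField F α →+* ℂ)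

/-- **the relative discrepancy** -/
theorem meanDisc_le (F : IntermediateField ℚ (AlgebraicClosure ℚ)) {α : AlgebraicClosure ℚ}
    (hα : α ≠ 0) (a b : (conjField F α →+* ℂ) → ℝ)
    (hab : ∀ σ, a σ ≤ b σ ∧ b σ ≤ a σ + 2 * Real.pi) :
    meanDisc F α a b ≤ Real.sqrt (minpoly F α).natDegree *
      (6 * Real.log (2 * (minpoly F α).natDegree) + 3 * ((minpoly F α).natDegree * ht α)) := by
  classical
  have hL := conjField_nf F α
  set R : Set (conjField F α) := {w | (w : AlgebraicClosure ℚ) ∈ conj F α} with hR
  have hRfin : R.Finite := (conj_finite F α).preimage (Subtype.val_injective.injOn)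
  set T : Finset (conjField F α) := hRfin.toFinset with hT
  have hmem : ∀ w : conjField F α, w ∈ T ↔ (w : AlgebraicClosure ℚ) ∈ conj F α := by
    intro w
    rw [hT, Set.Finite.mem_toFinset]
    rfl
  have hcard : T.card = (minpoly F α).natDegree := by
    rw [← conj_ncard, hT, ← Set.ncard_eq_toFinset_card R hRfin]
    have h1 := Set.ncard_preimage_of_injective_subset_range
      (f := ((↑) : conjField F α → AlgebraicClosure ℚ)) (s := conj F α) Subtype.val_injective (by
        intro w hw
        exact ⟨⟨w, IntermediateField.subset_adjoin ℚ _ hw⟩, rfl⟩)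
    exact h1
  have hT1 : 1 ≤ T.card := by
    rw [hcard]
    exact minpoly.natDegree_pos (alg F α)
  have h0 : ∀ x ∈ T, x ≠ 0 := by
    intro x hx h
    have := conj_ne_zero hα ((hmem x).1 hx)
    rw [h] at this
    exact this rfl
  have hH : ∀ x ∈ T, logHeight₁ x = finrank ℚ (conjField F α) * ht α := by
    intro x hx
    rw [lh_eq, conj_ht ((hmem x).1 hx)]
  have key := mean_disc T hT1 h0 hH a b hab
  rw [hcard] at key
  have hcount : ∀ σ : conjField F α →+* ℂ, cn (img T σ) (a σ) (b σ) =
      countIn F α σ (a σ) (b σ) := by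
    intro σ
    unfold cn img countIn
    rw [filter_image, card_image_of_injective _ σ.injective, ← Set.ncard_coe_finset]
    congr 1
    ext w
    simp only [coe_filter, Set.mem_setOf_eq, hmem]
  simp_rw [hcount] at key
  have hE : Nat.card (conjField F α →+* ℂ) = finrank ℚ (conjField F α) := by
    rw [Nat.card_eq_fintype_card]
    exact NumberField.Embeddings.card _ ℂ
  have hpos := Pool.Agent.Helper259.AbsHt.finrank_pos' (conjField F α)
  unfold meanDisc
  rw [hE, finsum_eq_sum_of_fintype, div_le_iff₀ hpos]
  refine key.trans (le_of_eq ?_)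
  ring

end Pool.Agent.Helper42.RD
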