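import Mathlib
import Pool.Agent.Helper42.RD.NF

/-!
# Determinants of small points: if `det (w_i ^ e_j) = 0` and `det (w_i ^ -e_j) ≠ 0` then the heights
# of the `w_i` are not small
-/

set_option autoImplicit false
set_option maxHeartbeats 1000000

namespace Pool.Agent.Helper42.RD

open Finset NumberField Height

/-- the archimedean inequality -/
theorem sum_inv_le {τ : Type*} [Fintype τ] [Nonempty τ] (x : τ → ℂ) (h0 : ∀ i, x i ≠ 0)
    (hs : ∑ i, x i = 0) {M m : ℝ} (hM : ∀ i, ‖x i‖ ≤ M) (hm : ∀ i, ‖(x i)⁻¹‖ ≤ m) :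
    ‖∑ i, (x i)⁻¹‖ ≤ 1 / 2 * m * (M * m) ^ (8 * Fintype.card τ ^ 2) := by
  classical
  set n : ℕ := Fintype.card τ with hn
  have hn1 : 1 ≤ n := Fintype.card_pos
  have hn1' : (1 : ℝ) ≤ n := by exact_mod_cast hn1
  obtain ⟨i0⟩ := ‹Nonempty τ›
  have hm0 : 0 < m := lt_of_lt_of_le (norm_pos_iff.2 (inv_ne_zero (h0 i0))) (hm i0)
  have hM0 : 0 < M := lt_of_lt_of_le (norm_pos_iff.2 (h0 i0)) (hM i0)
  have hxm : ∀ i, 1 ≤ ‖x i‖ * m := by
    intro i
    have h1 := norm_pos_iff.2 (h0 i)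
    have h2 := hm i
    rw [norm_inv, inv_le_comm₀ h1 hm0, inv_eq_one_div, div_le_iff₀ hm0] at h2
    exact h2
  have hR1 : 1 ≤ M * m := (hxm i0).trans (mul_le_mul_of_nonneg_right (hM i0) hm0.le)
  by_cases hR : (M * m) ^ 2 ≤ 1 + 1 / (2 * n)
  · have h1 : ∑ i, (x i)⁻¹ = ∑ i, ((x i)⁻¹ - (m : ℂ) ^ 2 * (starRingEnd ℂ) (x i)) := by
      rw [sum_sub_distrib, ← mul_sum, ← map_sum, hs, map_zero, mul_zero, sub_zero]
    have h2 : ∀ i, ‖(x i)⁻¹ - (m : ℂ) ^ 2 * (starRingEnd ℂ) (x i)‖ ≤ m / (2 * n) := by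
      intro i
      have h3 := norm_pos_iff.2 (h0 i)
      have e : (x i)⁻¹ - (m : ℂ) ^ 2 * (starRingEnd ℂ) (x i) =
          (x i)⁻¹ * (((1 - (‖x i‖ * m) ^ 2 : ℝ)) : ℂ) := by
        have h4 : (starRingEnd ℂ) (x i) = (x i)⁻¹ * ((‖x i‖ : ℂ)) ^ 2 := by
          rw [← Complex.conj_mul', mul_comm ((starRingEnd ℂ) (x i)), ← mul_assoc,
            inv_mul_cancel₀ (h0 i), one_mul]
        rw [h4]
        push_cast
        ring
      rw [e, norm_mul, Complex.norm_real, Real.norm_eq_abs]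
      have h5 : 1 ≤ (‖x i‖ * m) ^ 2 := one_le_pow₀ (hxm i)
      have h6 : (‖x i‖ * m) ^ 2 ≤ (M * m) ^ 2 :=
        pow_le_pow_left₀ (by positivity) (mul_le_mul_of_nonneg_right (hM i) hm0.le) 2
      rw [abs_of_nonpos (by linarith)]
      calc ‖(x i)⁻¹‖ * -(1 - (‖x i‖ * m) ^ 2) ≤ m * (1 / (2 * n)) :=
            mul_le_mul (hm i) (by linarith) (by linarith) hm0.le
        _ = m / (2 * n) := by ring
    rw [h1]
    calc ‖∑ i, ((x i)⁻¹ - (m : ℂ) ^ 2 * (starRingEnd ℂ) (x i))‖ ≤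
        ∑ _i : τ, m / (2 * n) := norm_sum_le_of_le _ fun i _ => h2 i
      _ = 1 / 2 * m * 1 := by
          rw [sum_const, card_univ, nsmul_eq_mul, ← hn]
          field_simp
      _ ≤ _ := mul_le_mul_of_nonneg_left (one_le_pow₀ hR1) (by positivity)
  · have h1 := not_le.1 hR
    have h2 : (2 * n : ℝ) ≤ (M * m) ^ (8 * n ^ 2) := by
      have e : 8 * n ^ 2 = 2 * (4 * n ^ 2) := by ring
      rw [e, pow_mul]
      have h3 : (1 + 1 / (2 * (n : ℝ))) ^ (4 * n ^ 2) ≤ ((M * m) ^ 2) ^ (4 * n ^ 2) :=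
        pow_le_pow_left₀ (by positivity) h1.le _
      have h4 := one_add_mul_le_pow (a := 1 / (2 * (n : ℝ))) (by
        have : 0 ≤ 1 / (2 * (n : ℝ)) := by positivity
        linarith) (4 * n ^ 2)
      have h5 : ((4 * n ^ 2 : ℕ) : ℝ) * (1 / (2 * (n : ℝ))) = 2 * n := by
        push_cast
        field_simp
        ring
      rw [h5] at h4
      linarith
    calc ‖∑ i, (x i)⁻¹‖ ≤ ∑ _i : τ, m := norm_sum_le_of_le _ fun i _ => hm i
      _ = 1 / 2 * m * (2 * n) := by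
          rw [sum_const, card_univ, nsmul_eq_mul, ← hn]
          ring
      _ ≤ _ := mul_le_mul_of_nonneg_left h2 (by positivity)

variable {L : Type*} [Field L] [NumberField L]

theorem fp_sum_le (v : FinitePlace L) {τ : Type*} (s : Finset τ) (x : τ → L) {B : ℝ} (hB : 0 ≤ B)
    (h : ∀ i ∈ s, v (x i) ≤ B) : v (∑ i ∈ s, x i) ≤ B := by
  classical
  induction s using Finset.induction_on with
  | empty => simpa using hB
  | insert a s ha ih =>
    rw [sum_insert ha]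
    refine (FinitePlace.add_le v _ _).trans (max_le (h a (mem_insert_self a s)) ?_)
    exact ih fun i hi => h i (mem_insert_of_mem hi)

theorem fp_sign (v : FinitePlace L) (u : ℤˣ) : v (((u : ℤ) : L)) = 1 := by
  rcases Int.units_eq_one_or u with rfl | rfl
  · simp
  · have h5 : v (-1) * v (-1) = 1 := by rw [← map_mul, neg_one_mul, neg_neg, map_one]
    have h6 : v (-1) = 1 := by
      rcases mul_self_eq_one_iff.mp h5 with h | h
      · exact h
      · have := apply_nonneg v (-1)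
        linarith
    simpa using h6

/-- the terms of the determinant of `w_i ^ e_j` -/
def term {A : Type*} [CommRing A] {ι : Type*} [Fintype ι] [DecidableEq ι] (w : ι → A) (e : ι → ℕ)
    (τ : Equiv.Perm ι) : A := ((Equiv.Perm.sign τ : ℤ) : A) * ∏ i, w (τ i) ^ e i

theorem det_eq_sum {A : Type*} [CommRing A] {ι : Type*} [Fintype ι] [DecidableEq ι] (w : ι → A)
    (e : ι → ℕ) : (Matrix.of fun i j => w i ^ e j).det = ∑ τ, term w e τ := by
  rw [Matrix.det_apply']
  rfl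

theorem term_inv {A : Type*} [Field A] {ι : Type*} [Fintype ι] [DecidableEq ι] (w : ι → A)
    (e : ι → ℕ) (τ : Equiv.Perm ι) : (term w e τ)⁻¹ = term (fun i => (w i)⁻¹) e τ := by
  unfold term
  rw [mul_inv, ← prod_inv_distrib]
  simp only [inv_pow]
  congr 1
  rcases Int.units_eq_one_or (Equiv.Perm.sign τ) with h | h
  · rw [h]
    simp
  · rw [h]
    simp

theorem term_ne_zero {A : Type*} [Field A] {ι : Type*} [Fintype ι] [DecidableEq ι] {w : ι → A}
    (hw : ∀ i, w i ≠ 0) (e : ι → ℕ) (τ : Equiv.Perm ι) : term w e τ ≠ 0 := by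
  unfold term
  refine mul_ne_zero ?_ (prod_ne_zero_iff.2 fun i _ => pow_ne_zero _ (hw _))
  rcases Int.units_eq_one_or (Equiv.Perm.sign τ) with h | h
  · rw [h]
    simp
  · rw [h]
    simp

/-- the bound for the terms with respect to an absolute value -/
theorem prod_pow_le {ι : Type*} [Fintype ι] [DecidableEq ι] (f : ι → ℝ) (hf : ∀ i, 0 ≤ f i)
    {e : ι → ℕ} {N : ℕ} (he : ∀ j, e j ≤ N) (τ : Equiv.Perm ι) :
    ∏ i, f (τ i) ^ e i ≤ ∏ i, max 1 (f i) ^ N := by
  rw [← Equiv.prod_comp τ (fun i => max 1 (f i) ^ N)]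
  apply prod_le_prod
  · intro i _
    exact pow_nonneg (hf _) _
  · intro i _
    calc f (τ i) ^ e i ≤ max 1 (f (τ i)) ^ e i := pow_le_pow_left₀ (hf _) (le_max_right _ _) _
      _ ≤ max 1 (f (τ i)) ^ N := pow_le_pow_right₀ (le_max_left _ _) (he i)

/-- **the gap** -/
theorem det_gap {ι : Type*} [Fintype ι] [DecidableEq ι] [Nonempty ι] (w : ι → L)
    (hw : ∀ i, w i ≠ 0) (e : ι → ℕ) {N : ℕ} (he : ∀ j, e j ≤ N)
    (h1 : (Matrix.of fun i j => w i ^ e j).det = 0)
    (h2 : (Matrix.of fun i j => (w i)⁻¹ ^ e j).det ≠ 0) {H : ℝ}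
    (hH : ∀ i, logHeight₁ (w i) = H) :
    Module.finrank ℚ L * Real.log 2 ≤
      (16 * ((Fintype.card ι).factorial : ℝ) ^ 2 + 1) * N * (Fintype.card ι * H) := by
  classical
  set s : ℕ := 8 * (Fintype.card (Equiv.Perm ι)) ^ 2 with hs
  set y : L := (Matrix.of fun i j => (w i)⁻¹ ^ e j).det with hy
  have hysum : y = ∑ τ, (term w e τ)⁻¹ := by
    rw [hy, det_eq_sum]
    exact sum_congr rfl fun τ _ => (term_inv w e τ).symm
  have hxsum : ∑ τ, term w e τ = 0 := by rw [← det_eq_sum]; exact h1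
  -- the archimedean places
  have harch : ∀ σ : L →+* ℂ, Real.log ‖σ y‖ ≤ -Real.log 2 +
      ((1 + s) * (N * ∑ i, Real.log (max 1 ‖σ (w i)⁻¹‖)) +
        s * (N * ∑ i, Real.log (max 1 ‖σ (w i)‖))) := by
    intro σ
    set M : ℝ := ∏ i, max 1 ‖σ (w i)‖ ^ N with hM
    set m : ℝ := ∏ i, max 1 ‖σ (w i)⁻¹‖ ^ N with hm
    have hM0 : 0 < M := prod_pos fun i _ => pow_pos (lt_of_lt_of_le one_pos (le_max_left _ _)) _
    have hm0 : 0 < m := prod_pos fun i _ => pow_pos (lt_of_lt_of_le one_pos (le_max_left _ _)) _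
    have hMl : Real.log M = N * ∑ i, Real.log (max 1 ‖σ (w i)‖) := by
      rw [hM, Real.log_prod (fun i _ => (pow_pos (lt_of_lt_of_le one_pos (le_max_left _ _)) _).ne'),
        mul_sum]
      exact sum_congr rfl fun i _ => Real.log_pow _ _
    have hml : Real.log m = N * ∑ i, Real.log (max 1 ‖σ (w i)⁻¹‖) := by
      rw [hm, Real.log_prod (fun i _ => (pow_pos (lt_of_lt_of_le one_pos (le_max_left _ _)) _).ne'),
        mul_sum]
      exact sum_congr rfl fun i _ => Real.log_pow _ _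
    have hsign : ∀ τ : Equiv.Perm ι, ‖σ (((Equiv.Perm.sign τ : ℤ) : L))‖ = 1 := by
      intro τ
      rcases Int.units_eq_one_or (Equiv.Perm.sign τ) with h | h
      · rw [h]
        simp
      · rw [h]
        simp
    have hb : ∀ (u : ι → L) (τ : Equiv.Perm ι), ‖σ (term u e τ)‖ ≤ ∏ i, max 1 ‖σ (u i)‖ ^ N := by
      intro u τ
      unfold term
      rw [map_mul, norm_mul, hsign, one_mul, map_prod, norm_prod]
      simp only [map_pow, norm_pow]
      exact prod_pow_le (fun i => ‖σ (u i)‖) (fun i => norm_nonneg _) he τ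
    have h3 := sum_inv_le (fun τ => σ (term w e τ))
      (fun τ => (map_ne_zero σ).2 (term_ne_zero hw e τ)) (by
        rw [← map_sum, hxsum, map_zero]) (M := M) (m := m) (fun τ => hb w τ) (fun τ => by
        rw [← map_inv₀, term_inv]
        exact hb _ τ)
    have h4 : ∑ τ, (σ (term w e τ))⁻¹ = σ y := by
      rw [hysum, map_sum]
      exact sum_congr rfl fun τ _ => (map_inv₀ σ _).symm
    rw [h4] at h3
    have h5 : 0 < ‖σ y‖ := norm_pos_iff.2 ((map_ne_zero σ).2 h2)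
    have h6 := Real.log_le_log h5 h3
    rw [Real.log_mul (by positivity) (by positivity), Real.log_mul (by norm_num) hm0.ne',
      Real.log_pow, Real.log_mul hM0.ne' hm0.ne', hMl, hml, one_div, Real.log_inv] at h6
    refine h6.trans (le_of_eq ?_)
    rw [← hs]
    ring
  -- the other places
  have hpow : ∀ i, (fun v : FinitePlace L => max (v (w i)⁻¹) 1 ^ N).HasFiniteMulSupport := fun i =>
    (fin_max (w i)⁻¹).pow N
  have hfin0 : ∏ᶠ v : FinitePlace L, v y ≤ ∏ i, fp (w i)⁻¹ ^ N := by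
    have e1 : ∏ᶠ v : FinitePlace L, ∏ i, max (v (w i)⁻¹) 1 ^ N = ∏ i, fp (w i)⁻¹ ^ N := by
      rw [finprod_prod_comm _ _ fun i _ => hpow i]
      refine prod_congr rfl fun i _ => ?_
      unfold fp
      rw [finprod_pow (fin_max (w i)⁻¹)]
    rw [← e1]
    apply finprod_le_finprod (FinitePlace.hasFiniteMulSupport h2) (fun v => apply_nonneg v _)
    · exact Function.HasFiniteMulSupport.prod (fun i => hpow i) _
    · intro v
      rw [hysum]
      have hB : 0 ≤ ∏ i, max (v (w i)⁻¹) 1 ^ N := by positivity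
      apply fp_sum_le v _ _ hB
      intro τ _
      rw [term_inv]
      unfold term
      rw [map_mul, fp_sign, one_mul, map_prod]
      simp only [map_pow]
      refine (prod_pow_le (fun i => v (w i)⁻¹) (fun i => apply_nonneg v _) he τ).trans (le_of_eq ?_)
      exact prod_congr rfl fun i _ => by rw [max_comm]
  have hy0 : y ≠ 0 := h2
  have h1' := prod_abs_eq_one hy0
  have h2' : ∏ v : InfinitePlace L, v y ^ v.mult = ∏ σ : L →+* ℂ, ‖σ y‖ :=
    (prod_emb (fun t => t) y).symm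
  rw [h2'] at h1'
  have hpos : ∀ σ : L →+* ℂ, 0 < ‖σ y‖ := fun σ => norm_pos_iff.2 ((map_ne_zero σ).2 hy0)
  have h3 : (0 : ℝ) < ∏ σ : L →+* ℂ, ‖σ y‖ := prod_pos fun σ _ => hpos σ
  have h4 : 0 < ∏ᶠ v : FinitePlace L, v y := by
    by_contra hcon
    have := mul_nonpos_of_nonneg_of_nonpos h3.le (not_lt.1 hcon)
    linarith
  have h5 := congrArg Real.log h1'
  rw [Real.log_mul h3.ne' h4.ne', Real.log_one, Real.log_prod (fun σ _ => (hpos σ).ne')] at h5
  have hfp0 : ∀ x : L, 0 < fp x := fun x => one_pos.trans_le (one_le_fp x)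
  have hfin : Real.log (∏ᶠ v : FinitePlace L, v y) ≤ N * ∑ i, Real.log (fp (w i)⁻¹) := by
    refine (Real.log_le_log h4 hfin0).trans (le_of_eq ?_)
    rw [Real.log_prod (fun i _ => (pow_pos (hfp0 _) _).ne'), mul_sum]
    exact sum_congr rfl fun i _ => Real.log_pow _ _
  -- sum over the embeddings
  have hcard : (Fintype.card (L →+* ℂ) : ℝ) = Module.finrank ℚ L := by
    exact_mod_cast NumberField.Embeddings.card L ℂ
  have h6 := sum_le_sum fun (σ : L →+* ℂ) (_ : σ ∈ univ) => harch σ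
  rw [sum_add_distrib, sum_const, card_univ, nsmul_eq_mul, hcard, sum_add_distrib, ← mul_sum,
    ← mul_sum, ← mul_sum, ← mul_sum, sum_comm, sum_comm (s := (univ : Finset (L →+* ℂ)))] at h6
  have e1 : ∑ i, ∑ σ : L →+* ℂ, Real.log (max 1 ‖σ (w i)⁻¹‖) = ∑ i, ai (w i)⁻¹ := rfl
  have e2 : ∑ i, ∑ σ : L →+* ℂ, Real.log (max 1 ‖σ (w i)‖) = ∑ i, ai (w i) := rfl
  rw [e1, e2] at h6
  have hHinv : ∀ i, logHeight₁ (w i)⁻¹ = H := by
    intro i
    rw [logHeight₁_eq_log_mulHeight₁, mulHeight₁_inv, ← logHeight₁_eq_log_mulHeight₁]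
    exact hH i
  have e3 : ∑ i, ai (w i)⁻¹ + ∑ i, Real.log (fp (w i)⁻¹) = Fintype.card ι * H := by
    rw [← sum_add_distrib, sum_congr rfl (g := fun _ => H) (fun i _ => by
      rw [← logHeight_parts, hHinv i]), sum_const, card_univ, nsmul_eq_mul]
  have e4 : ∑ i, ai (w i) + ∑ i, Real.log (fp (w i)) = Fintype.card ι * H := by
    rw [← sum_add_distrib, sum_congr rfl (g := fun _ => H) (fun i _ => by
      rw [← logHeight_parts, hH i]), sum_const, card_univ, nsmul_eq_mul]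
  have p1 : 0 ≤ ∑ i, Real.log (fp (w i)⁻¹) :=
    sum_nonneg fun i _ => Real.log_nonneg (one_le_fp _)
  have p2 : 0 ≤ ∑ i, Real.log (fp (w i)) := sum_nonneg fun i _ => Real.log_nonneg (one_le_fp _)
  have hs' : (s : ℝ) = 8 * ((Fintype.card ι).factorial : ℝ) ^ 2 := by
    rw [hs, Fintype.card_perm]
    push_cast
    ring
  have hs0 : (0 : ℝ) ≤ s := Nat.cast_nonneg _
  have hN0 : (0 : ℝ) ≤ N := Nat.cast_nonneg _
  have q1 : (1 + (s : ℝ)) * (N * ∑ i, ai (w i)⁻¹) + N * ∑ i, Real.log (fp (w i)⁻¹) ≤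
      (1 + s) * (N * (Fintype.card ι * H)) := by
    rw [← e3]
    have : 0 ≤ (s : ℝ) * (N * ∑ i, Real.log (fp (w i)⁻¹)) := by positivity
    nlinarith
  have q2 : (s : ℝ) * (N * ∑ i, ai (w i)) ≤ s * (N * (Fintype.card ι * H)) := by
    apply mul_le_mul_of_nonneg_left _ hs0
    apply mul_le_mul_of_nonneg_left _ hN0
    linarith
  have e5 : (16 * ((Fintype.card ι).factorial : ℝ) ^ 2 + 1) * N * (Fintype.card ι * H) =
      (1 + s) * (N * (Fintype.card ι * H)) + s * (N * (Fintype.card ι * H)) := by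
    rw [hs']
    ring
  rw [e5]
  linarith

end Pool.Agent.Helper42.RD
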