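import Mathlib
import Pool.Agent.Helper42.RD.Fin
import Pool.Agent.Helper42.RD.Zag

/-!
# Relations between powers and the height
-/

set_option autoImplicit false
set_option maxHeartbeats 1000000

namespace Pool.Agent.Helper42.RD

open Finset NumberField Height Module Polynomial
open Pool.Agent.H58P (Qb ht)

theorem conj_eval {F : IntermediateField ℚ (AlgebraicClosure ℚ)} {α w : AlgebraicClosure ℚ}
    (hw : w ∈ conj F α) : aeval w (minpoly F α) = 0 := by
  unfold conj at hw
  rw [Polynomial.mem_rootSet] at hw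
  exact hw.2

theorem map_dvd (F : IntermediateField ℚ (AlgebraicClosure ℚ)) (α : AlgebraicClosure ℚ)
    {G : (AlgebraicClosure ℚ)[X]} (hG : ∀ w ∈ conj F α, G.eval w = 0) :
    (minpoly F α).map (algebraMap F (AlgebraicClosure ℚ)) ∣ G := by
  classical
  rcases eq_or_ne G 0 with rfl | hG0
  · exact dvd_zero _
  have hsep : (minpoly F α).Separable := (minpoly.irreducible (alg F α)).separable
  have hspl := IsAlgClosed.splits ((minpoly F α).map (algebraMap F (AlgebraicClosure ℚ)))
  have hmon : ((minpoly F α).map (algebraMap F (AlgebraicClosure ℚ))).Monic :=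
    (minpoly.monic (alg F α)).map _
  have hnd : ((minpoly F α).map (algebraMap F (AlgebraicClosure ℚ))).roots.Nodup :=
    nodup_roots hsep.map
  rw [Polynomial.Splits.dvd_iff_roots_le_roots hspl hmon.ne_zero hG0]
  rw [Multiset.le_iff_subset hnd]
  intro w hw
  rw [mem_roots hG0]
  apply hG
  unfold conj
  rw [Polynomial.mem_rootSet]
  rw [mem_roots hmon.ne_zero, IsRoot.def, eval_map, ← aeval_def] at hw
  exact ⟨minpoly.ne_zero (alg F α), hw⟩

theorem coef_zero {F : IntermediateField ℚ (AlgebraicClosure ℚ)} {α : AlgebraicClosure ℚ}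
    (hα : α ≠ 0) {ι : Type*} [Fintype ι] (e : ι → ℕ)
    (hind : LinearIndependent F (fun j => α⁻¹ ^ e j)) (c : ι → AlgebraicClosure ℚ)
    (hc : ∀ w ∈ conj F α, ∑ j, c j * w⁻¹ ^ e j = 0) : c = 0 := by
  classical
  obtain ⟨N, hN⟩ : ∃ N : ℕ, ∀ j, e j ≤ N := ⟨∑ j, e j, fun j =>
    single_le_sum (f := e) (fun i _ => Nat.zero_le _) (mem_univ j)⟩
  have hpow : ∀ (w : AlgebraicClosure ℚ), w ≠ 0 → ∀ j, w ^ (N - e j) = w ^ N * w⁻¹ ^ e j := by
    intro w hw j
    rw [inv_pow, pow_sub₀ w hw (hN j)]
  set f := minpoly F α with hf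
  have hmon : f.Monic := minpoly.monic (alg F α)
  set G : (AlgebraicClosure ℚ)[X] := ∑ j, C (c j) * X ^ (N - e j) with hG
  have hG0 : f.map (algebraMap F (AlgebraicClosure ℚ)) ∣ G := by
    apply map_dvd F α
    intro w hw
    have hw0 := conj_ne_zero hα hw
    rw [hG, eval_finsetSum]
    simp only [eval_mul, eval_C, eval_pow, eval_X]
    simp_rw [hpow w hw0]
    have e1 : ∑ j, c j * (w ^ N * w⁻¹ ^ e j) = w ^ N * ∑ j, c j * w⁻¹ ^ e j := by
      rw [mul_sum]
      exact sum_congr rfl fun j _ => by ring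
    rw [e1, hc w hw, mul_zero]
  -- remainders
  set r : ι → F[X] := fun j => X ^ (N - e j) %ₘ f with hr
  have hrem : ∑ j, C (c j) * (r j).map (algebraMap F (AlgebraicClosure ℚ)) = 0 := by
    have h1 : G %ₘ f.map (algebraMap F (AlgebraicClosure ℚ)) = 0 :=
      (modByMonic_eq_zero_iff_dvd (hmon.map _)).2 hG0
    rw [hG] at h1
    have h2 : (∑ j, C (c j) * X ^ (N - e j)) %ₘ f.map (algebraMap F (AlgebraicClosure ℚ)) =
        ∑ j, C (c j) * (r j).map (algebraMap F (AlgebraicClosure ℚ)) := by
      have h3 := map_sum (modByMonicHom (f.map (algebraMap F (AlgebraicClosure ℚ))))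
        (fun j => C (c j) * X ^ (N - e j)) (univ : Finset ι)
      simp only [modByMonicHom_apply] at h3
      rw [h3]
      refine sum_congr rfl fun j _ => ?_
      rw [← smul_eq_C_mul, smul_modByMonic, smul_eq_C_mul, hr]
      simp only
      rw [map_modByMonic _ hmon, Polynomial.map_pow, map_X]
    rw [← h2]
    exact h1
  have hcoef : ∀ m, ∑ j, c j * algebraMap F (AlgebraicClosure ℚ) ((r j).coeff m) = 0 := by
    intro m
    have := congrArg (fun p => coeff p m) hrem
    simpa [finsetSum_coeff] using this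
  funext j0
  rw [Pi.zero_apply]
  rw [← Module.forall_dual_apply_eq_zero_iff F]
  intro φ
  have h1 : ∀ m, ∑ j, φ (c j) * (r j).coeff m = 0 := by
    intro m
    have h2 := congrArg φ (hcoef m)
    rw [map_zero, map_sum] at h2
    rw [← h2]
    refine sum_congr rfl fun j _ => ?_
    have e1 : c j * algebraMap F (AlgebraicClosure ℚ) ((r j).coeff m) = (r j).coeff m • c j := by
      rw [Algebra.smul_def, mul_comm]
    rw [e1, map_smul, smul_eq_mul, mul_comm]
  have h2 : ∑ j, C (φ (c j)) * r j = 0 := by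
    ext m
    simpa [finsetSum_coeff] using congrArg (fun x : F => (x : AlgebraicClosure ℚ)) (h1 m)
  have h3 : ∀ j, aeval α (r j) = α ^ (N - e j) := by
    intro j
    rw [hr]
    simp only
    rw [modByMonic_eq_sub_mul_div, map_sub, map_mul, hf, minpoly.aeval, zero_mul, sub_zero, map_pow,
      aeval_X]
  have h4 : ∑ j, φ (c j) • α⁻¹ ^ e j = 0 := by
    have h5 := congrArg (aeval α) h2
    rw [map_zero, map_sum] at h5
    have h6 : ∀ j, aeval α (C (φ (c j)) * r j) = α ^ N * (φ (c j) • α⁻¹ ^ e j) := by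
      intro j
      rw [map_mul, aeval_C, h3, hpow α hα, Algebra.smul_def]
      ring
    rw [sum_congr rfl fun j _ => h6 j, ← mul_sum] at h5
    exact (mul_eq_zero.1 h5).resolve_left (pow_ne_zero _ hα)
  exact (Fintype.linearIndependent_iff.1 hind) (fun j => φ (c j)) h4 j0

/-- a family of vectors on which no nonzero linear form vanishes contains an invertible matrix -/
theorem exists_det {K : Type*} [Field K] {ι : Type*} [Fintype ι] [DecidableEq ι]
    (S : Set (ι → K)) (h : ∀ c : ι → K, (∀ r ∈ S, ∑ j, c j * r j = 0) → c = 0) :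
    ∃ r : ι → (ι → K), (∀ i, r i ∈ S) ∧ (Matrix.of r).det ≠ 0 := by
  classical
  have hspan : Submodule.span K S = ⊤ := by
    by_contra hcon
    obtain ⟨f, hf0, hf⟩ := Submodule.exists_le_ker_of_lt_top _ (lt_top_iff_ne_top.2 hcon)
    apply hf0
    have h1 : (fun j => f (Pi.single j 1)) = 0 := by
      apply h
      intro r hr
      have h2 : f r = 0 := by
        have := hf (Submodule.subset_span hr)
        exact this
      rw [LinearMap.pi_apply_eq_sum_univ] at h2
      rw [← h2]
      refine sum_congr rfl fun j _ => ?_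
      rw [smul_eq_mul, mul_comm]
      congr 2
      funext i
      simp [Pi.single_apply, eq_comm]
    ext j
    have h3 := congrFun h1 j
    simpa using h3
  obtain ⟨b, hbS, hbspan, hli⟩ := exists_linearIndependent K S
  rw [hspan] at hbspan
  let B := Basis.mk hli (by
    rw [Subtype.range_coe, hbspan])
  let E := (Pi.basisFun K ι).indexEquiv B
  refine ⟨fun i => (E i : ι → K), fun i => hbS (E i).2, ?_⟩
  have h4 : LinearIndependent K (fun i => (E i : ι → K)) := hli.comp _ E.injective
  have h5 : IsUnit (Matrix.of fun i => (E i : ι → K)) := Matrix.linearIndependent_rows_iff_isUnit.1 h4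
  have h6 := (Matrix.isUnit_iff_isUnit_det _).1 h5
  exact h6.ne_zero

theorem exists_rows {F : IntermediateField ℚ (AlgebraicClosure ℚ)} {α : AlgebraicClosure ℚ}
    (hα : α ≠ 0) {ι : Type*} [Fintype ι] [DecidableEq ι] (e : ι → ℕ)
    (hind : LinearIndependent F (fun j => α⁻¹ ^ e j)) :
    ∃ w : ι → AlgebraicClosure ℚ, (∀ i, w i ∈ conj F α) ∧
      (Matrix.of fun i j => (w i)⁻¹ ^ e j).det ≠ 0 := by
  obtain ⟨r, hr, hdet⟩ := exists_det
    ((fun w : AlgebraicClosure ℚ => (fun j => w⁻¹ ^ e j)) '' conj F α) (fun c hc =>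
      coef_zero hα e hind c fun w hw => hc _ ⟨w, hw, rfl⟩)
  choose w hw hwr using hr
  refine ⟨w, hw, ?_⟩
  have : (Matrix.of fun i j => (w i)⁻¹ ^ e j) = Matrix.of r := by
    congr 1
    funext i
    exact hwr i
  rw [this]
  exact hdet

theorem det_zero {F : IntermediateField ℚ (AlgebraicClosure ℚ)} {α : AlgebraicClosure ℚ}
    {ι : Type*} [Fintype ι] [DecidableEq ι] (e : ι → ℕ)
    (hdep : ¬ LinearIndependent F (fun j => α ^ e j)) (w : ι → AlgebraicClosure ℚ)
    (hw : ∀ i, w i ∈ conj F α) : (Matrix.of fun i j => w i ^ e j).det = 0 := by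
  rw [Fintype.not_linearIndependent_iff] at hdep
  obtain ⟨c, hc, j0, hj0⟩ := hdep
  rw [← Matrix.exists_mulVec_eq_zero_iff]
  refine ⟨fun j => (c j : AlgebraicClosure ℚ), ?_, ?_⟩
  · intro h
    apply hj0
    have h1 := congrFun h j0
    rw [Pi.zero_apply] at h1
    exact_mod_cast h1
  · funext i
    have h1 : aeval α (∑ j, C (c j) * X ^ e j) = 0 := by
      rw [map_sum, ← hc]
      refine sum_congr rfl fun j _ => ?_
      rw [map_mul, aeval_C, map_pow, aeval_X, Algebra.smul_def]
    obtain ⟨q, hq⟩ := minpoly.dvd F α h1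
    have h2 : aeval (w i) (∑ j, C (c j) * X ^ e j) = 0 := by
      rw [hq, map_mul, conj_eval (hw i), zero_mul]
    rw [map_sum] at h2
    rw [Pi.zero_apply, ← h2, Matrix.mulVec, dotProduct]
    refine sum_congr rfl fun j _ => ?_
    rw [map_mul, aeval_C, map_pow, aeval_X, mul_comm]
    rfl

/-- **the gap for the height** -/
theorem relation_gap (F : IntermediateField ℚ (AlgebraicClosure ℚ)) {α : AlgebraicClosure ℚ}
    (hα : α ≠ 0) {ι : Type*} [Fintype ι] (e : ι → ℕ) {N : ℕ} (he : ∀ j, e j ≤ N)
    (hdep : ¬ LinearIndependent F (fun j => α ^ e j))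
    (hind : LinearIndependent F (fun j => α⁻¹ ^ e j)) :
    Real.log 2 ≤ (16 * ((Fintype.card ι).factorial : ℝ) ^ 2 + 1) * Fintype.card ι * N * ht α := by
  classical
  have hne : Nonempty ι := by
    by_contra hcon
    rw [not_nonempty_iff] at hcon
    exact hdep linearIndependent_empty_type
  obtain ⟨w, hw, hdet⟩ := exists_rows hα e hind
  have hdet0 := det_zero e hdep w hw
  have hL := conjField_nf F α
  let w' : ι → conjField F α := fun i => ⟨w i, IntermediateField.subset_adjoin ℚ _ (hw i)⟩
  have hmap1 : algebraMap (conjField F α) (AlgebraicClosure ℚ)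
      (Matrix.of fun i j => w' i ^ e j).det = (Matrix.of fun i j => w i ^ e j).det := by
    rw [RingHom.map_det]
    congr 1
  have hmap2 : algebraMap (conjField F α) (AlgebraicClosure ℚ)
      (Matrix.of fun i j => (w' i)⁻¹ ^ e j).det = (Matrix.of fun i j => (w i)⁻¹ ^ e j).det := by
    rw [RingHom.map_det]
    congr 1
  have key := det_gap w' (fun i h => conj_ne_zero hα (hw i) (congrArg Subtype.val h)) e he
    (by
      apply (map_eq_zero (algebraMap (conjField F α) (AlgebraicClosure ℚ))).1
      rw [hmap1, hdet0]) (by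
      intro h
      apply hdet
      rw [← hmap2, h, map_zero]) (H := finrank ℚ (conjField F α) * ht α) (fun i => by
      rw [lh_eq]
      congr 1
      exact conj_ht (hw i))
  have hpos := Pool.Agent.Helper259.AbsHt.finrank_pos' (conjField F α)
  have e1 : (16 * ((Fintype.card ι).factorial : ℝ) ^ 2 + 1) * N *
      (Fintype.card ι * (finrank ℚ (conjField F α) * ht α)) =
      finrank ℚ (conjField F α) *
        ((16 * ((Fintype.card ι).factorial : ℝ) ^ 2 + 1) * Fintype.card ι * N * ht α) := by ring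
  rw [e1] at key
  exact le_of_mul_le_mul_left key hpos

end Pool.Agent.Helper42.RD
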